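import Mathlib

/-!
The multiplicity of `-1` as a root of the Eulerian polynomial of an orientation of a complete
multipartite graph with `r` parts of odd size is `r / 2` rounded down.
-/

namespace Pool.Agent.Results.MP_a2af9e_co.MultHalfOdd

open Polynomial Finset

open Classical in
/-- Number of arcs `u → v` with `σ u > σ v`. -/
noncomputable def des {W : Type} [Fintype W] {n : ℕ} (arc : W → W → Prop) (σ : W ≃ Fin n) : ℕ :=
  ((univ : Finset (W × W)).filter (fun p => arc p.1 p.2 ∧ σ p.2 < σ p.1)).card

open Classical in
/-- The Eulerian polynomial of a digraph with vertex type `W`, as a sum over the bijections from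
`W` to `Fin n`. -/
noncomputable def eul (R : Type) [CommRing R] {W : Type} [Fintype W] (n : ℕ)
    (arc : W → W → Prop) : R[X] :=
  ∑ σ : W ≃ Fin n, X ^ des arc σ

lemma eul_map {W : Type} [Fintype W] (n : ℕ) (arc : W → W → Prop) {R S : Type} [CommRing R]
    [CommRing S] (f : R →+* S) : (eul R n arc).map f = eul S n arc := by
  unfold eul
  rw [Polynomial.map_sum]
  simp

lemma des_iso {W W' : Type} [Fintype W] [Fintype W'] {n : ℕ} (arc : W → W → Prop)
    (arc' : W' → W' → Prop) (e : W ≃ W') (h : ∀ u v, arc u v ↔ arc' (e u) (e v))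
    (σ : W ≃ Fin n) : des arc σ = des arc' (e.symm.trans σ) := by
  classical
  unfold des
  refine Finset.card_bij (fun p _ => (e p.1, e p.2)) ?_ ?_ ?_
  · intro p hp
    simp only [mem_filter, mem_univ, true_and] at hp ⊢
    simpa [← h] using hp
  · intro p _ q _ hpq
    simp only [Prod.mk.injEq, EmbeddingLike.apply_eq_iff_eq] at hpq
    exact Prod.ext hpq.1 hpq.2
  · intro q hq
    refine ⟨(e.symm q.1, e.symm q.2), ?_, by simp⟩
    simp only [mem_filter, mem_univ, true_and] at hq ⊢
    rw [h]
    simpa using hq

lemma eul_iso (R : Type) [CommRing R] {W W' : Type} {_ : Fintype W} {_ : Fintype W'} (n : ℕ)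
    (arc : W → W → Prop) (arc' : W' → W' → Prop) (e : W ≃ W')
    (h : ∀ u v, arc u v ↔ arc' (e u) (e v)) : eul R n arc = eul R n arc' := by
  classical
  unfold eul
  refine Fintype.sum_equiv (Equiv.equivCongr e (Equiv.refl _)) _ _ ?_
  intro σ
  rw [des_iso arc arc' e h σ]
  congr 1

open Classical in
lemma des_ext {W : Type} [Fintype W] (n : ℕ)
    (arc : W → W → Prop) (hl : ∀ v, ¬ arc v v) (x : W)
    (e : {e : Option (Fin n) ≃ W // e none = x}) :
    des arc (e.1.symm.trans (finSuccEquiv n).symm) =
      (univ.filter (fun u => arc u x)).card +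
        des (fun u v : {v : W // v ≠ x} => arc u.1 v.1) (Equiv.optionSubtype x e).symm := by
  obtain ⟨e, he⟩ := e
  -- the order of the vertices
  set σ : W ≃ Fin (n + 1) := e.symm.trans (finSuccEquiv n).symm with hσ
  set τ : {v : W // v ≠ x} ≃ Fin n := ((Equiv.optionSubtype x) ⟨e, he⟩).symm with hτ
  have hx : σ x = 0 := by
    rw [hσ, ← he]
    simp
  have hv : ∀ v : {v : W // v ≠ x}, σ v.1 = (τ v).succ := by
    intro v
    have h3 : e.symm v.1 = some (τ v) := by
      rw [Equiv.symm_apply_eq]
      have h4 : v = (Equiv.optionSubtype x ⟨e, he⟩) (τ v) := by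
        rw [hτ]
        simp
      have h5 := congrArg Subtype.val h4
      rw [h5]
      exact (Equiv.coe_optionSubtype_apply_apply x ⟨e, he⟩ (τ v)).trans rfl
    rw [hσ]
    simp [h3]
  show des arc σ = _ + des _ τ
  unfold des
  rw [← Finset.card_filter_add_card_filter_not (s := (univ : Finset (W × W)).filter
    (fun p => arc p.1 p.2 ∧ σ p.2 < σ p.1)) (fun p => p.2 = x)]
  congr 1
  · refine (Finset.card_bij (fun u _ => (u, x)) ?_ ?_ ?_).symm
    · intro u hu
      simp only [mem_filter, mem_univ, true_and] at hu ⊢
      refine ⟨⟨hu, ?_⟩, trivial⟩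
      rw [hx]
      have hne : u ≠ x := by
        rintro rfl
        exact hl _ hu
      rw [hv ⟨u, hne⟩]
      exact Fin.succ_pos _
    · intro u _ v _ h
      simpa using h
    · rintro ⟨u, v⟩ huv
      simp only [mem_filter, mem_univ, true_and] at huv
      obtain ⟨⟨h3, _⟩, rfl⟩ := huv
      exact ⟨u, by simpa using h3, rfl⟩
  · refine (Finset.card_bij (fun p _ => (p.1.1, p.2.1)) ?_ ?_ ?_).symm
    · rintro ⟨u, v⟩ h
      simp only [mem_filter, mem_univ, true_and] at h ⊢
      refine ⟨⟨h.1, ?_⟩, v.2⟩
      rw [hv, hv]
      exact Fin.succ_lt_succ_iff.2 h.2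
    · rintro ⟨u, v⟩ _ ⟨u', v'⟩ _ h
      simp only [Prod.mk.injEq] at h
      exact Prod.ext (Subtype.ext h.1) (Subtype.ext h.2)
    · rintro ⟨u, v⟩ h
      simp only [mem_filter, mem_univ, true_and] at h
      obtain ⟨⟨h3, h4⟩, h5⟩ := h
      have h6 : u ≠ x := by
        rintro rfl
        rw [hx] at h4
        exact absurd h4 (Fin.not_lt_zero _)
      refine ⟨(⟨u, h6⟩, ⟨v, h5⟩), ?_, rfl⟩
      simp only [mem_filter, mem_univ, true_and]
      refine ⟨h3, ?_⟩
      rw [hv ⟨v, h5⟩, hv ⟨u, h6⟩] at h4
      exact Fin.succ_lt_succ_iff.1 h4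


open Classical in
/-- the extension of a bijection by one new first element -/
lemma eul_rec (R : Type) [CommRing R] {W : Type} [Fintype W] (n : ℕ)
    (arc : W → W → Prop) (hl : ∀ v, ¬ arc v v) :
    eul R (n + 1) arc = ∑ x : W, X ^ (univ.filter (fun u => arc u x)).card *
      eul R n (fun u v : {v : W // v ≠ x} => arc u.1 v.1) := by
  unfold eul
  have h1 : ∑ σ : W ≃ Fin (n + 1), (X : R[X]) ^ des arc σ =
      ∑ e : Option (Fin n) ≃ W, (X : R[X]) ^ des arc (e.symm.trans (finSuccEquiv n).symm) := by
    refine Fintype.sum_equiv (Equiv.mk (fun σ => (finSuccEquiv n).symm.trans σ.symm)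
      (fun e => e.symm.trans (finSuccEquiv n).symm) ?_ ?_) _ _ ?_
    · intro σ
      ext v
      simp
    · intro e
      ext v
      simp
    · intro σ
      congr 2
      ext v
      simp
  rw [h1]
  rw [← Finset.sum_fiberwise (univ : Finset (Option (Fin n) ≃ W)) (fun e => e none)]
  refine Finset.sum_congr rfl fun x _ => ?_
  rw [Finset.mul_sum]
  have h2 : ∑ e ∈ (univ : Finset (Option (Fin n) ≃ W)) with e none = x,
      (X : R[X]) ^ des arc (e.symm.trans (finSuccEquiv n).symm) =
      ∑ e : {e : Option (Fin n) ≃ W // e none = x},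
        (X : R[X]) ^ des arc (e.1.symm.trans (finSuccEquiv n).symm) := by
    rw [Finset.sum_subtype]
    intro e
    simp
  rw [h2]
  have key : ∀ (i2 : Fintype ({v : W // v ≠ x} ≃ Fin n)),
      ∑ e : {e : Option (Fin n) ≃ W // e none = x},
        (X : R[X]) ^ des arc (e.1.symm.trans (finSuccEquiv n).symm) =
      @Finset.sum _ _ _ (@univ _ i2) (fun τ : {v : W // v ≠ x} ≃ Fin n =>
        X ^ (univ.filter (fun u => arc u x)).card *
        X ^ des (fun u v : {v : W // v ≠ x} => arc u.1 v.1) τ) := by
    intro i2
    refine Fintype.sum_equiv ((Equiv.optionSubtype x).trans (Equiv.mk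
      (fun τ => τ.symm) (fun τ => τ.symm) (fun τ => rfl) (fun τ => rfl))) _ _ ?_
    intro e
    rw [← pow_add]
    congr 1
    exact des_ext n arc hl x e
  exact key _

section Sets

variable {V : Type} [DecidableEq V]

/-- the polynomial of the induced digraph on a finite set -/
noncomputable def pol (R : Type) [CommRing R] (arc : V → V → Prop) (S : Finset V) : R[X] :=
  eul R S.card (fun u v : S => arc u.1 v.1)

open Classical in
/-- number of in-neighbours in `S` -/
noncomputable def inn (arc : V → V → Prop) (S : Finset V) (x : V) : ℕ :=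
  (S.filter (fun u => arc u x)).card

omit [DecidableEq V] in
lemma pol_empty (R : Type) [CommRing R] (arc : V → V → Prop) :
    pol R arc (∅ : Finset V) = 1 := by
  classical
  unfold pol eul
  have h : ∀ σ : (∅ : Finset V) ≃ Fin (∅ : Finset V).card,
      (X : R[X]) ^ des (fun u v : (∅ : Finset V) => arc u.1 v.1) σ = 1 := by
    intro σ
    have : des (fun u v : (∅ : Finset V) => arc u.1 v.1) σ = 0 := by
      unfold des
      rw [Finset.card_eq_zero, Finset.filter_eq_empty_iff]
      rintro ⟨⟨u, hu⟩, _⟩
      exact absurd hu (Finset.notMem_empty u)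
    rw [this, pow_zero]
  have h2 : ∀ (i2 : Fintype ((∅ : Finset V) ≃ Fin (∅ : Finset V).card)),
      @Finset.sum _ _ _ (@univ _ i2) (fun σ => (X : R[X]) ^
        des (fun u v : (∅ : Finset V) => arc u.1 v.1) σ) = 1 := by
    intro i2
    rw [Finset.sum_congr rfl fun σ _ => h σ, Finset.sum_const]
    have hu : Unique ((∅ : Finset V) ≃ Fin (∅ : Finset V).card) := by
      have e0 : IsEmpty (Fin (∅ : Finset V).card) := by
        rw [Finset.card_empty]
        infer_instance
      have e1 : IsEmpty (∅ : Finset V) := by
        constructor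
        rintro ⟨u, hu⟩
        exact absurd hu (Finset.notMem_empty u)
      exact { default := Equiv.equivOfIsEmpty _ _, uniq := fun a => by
                ext u
                exact e1.elim u }
    have : (univ : Finset ((∅ : Finset V) ≃ Fin (∅ : Finset V).card)).card = 1 := by
      rw [Finset.card_univ]
      exact Fintype.card_eq_one_iff.2 ⟨hu.default, hu.uniq⟩
    rw [this]
    simp
  exact h2 _

lemma pol_rec (R : Type) [CommRing R] (arc : V → V → Prop) (hl : ∀ v, ¬ arc v v)
    (S : Finset V) (n : ℕ) (hS : S.card = n + 1) :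
    pol R arc S = ∑ x ∈ S, X ^ inn arc S x * pol R arc (S.erase x) := by
  classical
  unfold pol
  rw [hS, eul_rec R n _ (fun v => hl v.1)]
  rw [← Finset.sum_coe_sort S]
  refine Finset.sum_congr rfl fun x _ => ?_
  congr 1
  · congr 1
    unfold inn
    refine Finset.card_bij (fun u _ => u.1) ?_ ?_ ?_
    · intro u hu
      simp only [mem_filter, mem_univ, true_and] at hu ⊢
      exact ⟨u.2, hu⟩
    · intro u _ v _ h
      exact Subtype.ext h
    · intro u hu
      simp only [mem_filter] at hu
      exact ⟨⟨u, hu.1⟩, by simpa using hu.2, rfl⟩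
  · have h1 : (S.erase x.1).card = n := by
      rw [Finset.card_erase_of_mem x.2, hS]
      simp
    rw [h1]
    refine eul_iso R n _ _ (Equiv.mk (fun v => ⟨v.1.1, Finset.mem_erase.2
      ⟨fun h => v.2 (Subtype.ext h), v.1.2⟩⟩)
      (fun v => ⟨⟨v.1, Finset.mem_of_mem_erase v.2⟩, fun h =>
        (Finset.mem_erase.1 v.2).1 (congrArg Subtype.val h)⟩) (fun v => rfl) (fun v => rfl)) ?_
    intro u v
    exact Iff.rfl

/-- the remaining set -/
lemma erase_pair (S : Finset V) (x y : V) : (S.erase x).erase y = S \ {x, y} := by
  ext v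
  simp only [mem_erase, mem_sdiff, mem_insert, mem_singleton, not_or]
  tauto

lemma inn_erase_self (arc : V → V → Prop) (hl : ∀ v, ¬ arc v v) (S : Finset V) (x : V) :
    inn arc (S.erase x) x = inn arc S x := by
  classical
  unfold inn
  congr 1
  ext u
  simp only [mem_filter, mem_erase]
  constructor
  · rintro ⟨⟨_, h1⟩, h2⟩
    exact ⟨h1, h2⟩
  · rintro ⟨h1, h2⟩
    refine ⟨⟨?_, h1⟩, h2⟩
    rintro rfl
    exact hl _ h2

open Classical in
lemma inn_erase (arc : V → V → Prop) (S : Finset V) (x y : V) (hy : y ∈ S) :
    inn arc S x = inn arc (S.erase y) x + (if arc y x then 1 else 0) := by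
  unfold inn
  by_cases h : arc y x
  · rw [if_pos h]
    have h2 : S.filter (fun u => arc u x) = insert y ((S.erase y).filter (fun u => arc u x)) := by
      ext u
      simp only [mem_filter, mem_insert, mem_erase]
      by_cases h3 : u = y
      · subst h3
        simp [hy, h]
      · simp [h3]
    rw [h2, Finset.card_insert_of_notMem]
    simp
  · rw [if_neg h, add_zero]
    congr 1
    ext u
    simp only [mem_filter, mem_erase]
    constructor
    · rintro ⟨h1, h2⟩
      refine ⟨⟨?_, h1⟩, h2⟩
      rintro rfl
      exact h h2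
    · rintro ⟨⟨_, h1⟩, h2⟩
      exact ⟨h1, h2⟩

/-- orientation of a complete multipartite graph -/
def IsOri {ι : Type} (part : V → ι) (arc : V → V → Prop) : Prop :=
  ∀ u v, (part u = part v → ¬ arc u v) ∧ (part u ≠ part v → (arc u v ↔ ¬ arc v u))

variable {ι : Type} [DecidableEq ι]

/-- the weight of a pair -/
noncomputable def wgt (R : Type) [CommRing R] (part : V → ι) (x y : V) : R[X] :=
  if part x = part y then 2 else 1 + X

lemma pol_two (R : Type) [CommRing R] {part : V → ι} {arc : V → V → Prop} (h : IsOri part arc)
    (S : Finset V) (n : ℕ) (hS : S.card = n + 2) :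
    2 * pol R arc S = ∑ x ∈ S, ∑ y ∈ S.erase x,
      X ^ (inn arc (S \ {x, y}) x + inn arc (S \ {x, y}) y) * wgt R part x y *
        pol R arc (S \ {x, y}) := by
  classical
  have hl : ∀ v, ¬ arc v v := fun v => (h v v).1 rfl
  have h1 : pol R arc S = ∑ x ∈ S, ∑ y ∈ S.erase x,
      X ^ (inn arc S x + inn arc (S.erase x) y) * pol R arc (S \ {x, y}) := by
    rw [pol_rec R arc hl S (n + 1) hS]
    refine Finset.sum_congr rfl fun x hx => ?_
    rw [pol_rec R arc hl (S.erase x) n (by rw [Finset.card_erase_of_mem hx, hS]; rfl),
      Finset.mul_sum]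
    refine Finset.sum_congr rfl fun y _ => ?_
    rw [erase_pair, pow_add, mul_assoc]
  have h2 : pol R arc S = ∑ x ∈ S, ∑ y ∈ S.erase x,
      X ^ (inn arc S y + inn arc (S.erase y) x) * pol R arc (S \ {x, y}) := by
    rw [h1]
    rw [Finset.sum_comm' (t' := S) (s' := fun y => S.erase y)]
    · refine Finset.sum_congr rfl fun x _ => ?_
      refine Finset.sum_congr rfl fun y _ => ?_
      rw [Finset.pair_comm]
    · intro x y
      simp only [mem_erase]
      constructor
      · rintro ⟨a, b, c⟩
        exact ⟨⟨fun h => b h.symm, a⟩, c⟩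
      · rintro ⟨⟨a, b⟩, c⟩
        exact ⟨b, fun h => a h.symm, c⟩
  rw [two_mul]
  nth_rewrite 1 [h1]
  rw [h2, ← Finset.sum_add_distrib]
  refine Finset.sum_congr rfl fun x hx => ?_
  rw [← Finset.sum_add_distrib]
  refine Finset.sum_congr rfl fun y hy => ?_
  have hxy : y ≠ x := Finset.ne_of_mem_erase hy
  have hyS : y ∈ S := Finset.mem_of_mem_erase hy
  have e1 : inn arc S x = inn arc (S \ {x, y}) x + (if arc y x then 1 else 0) := by
    rw [inn_erase arc S x y hyS, ← inn_erase_self arc hl (S.erase y) x, Finset.erase_right_comm,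
      erase_pair]
  have e2 : inn arc S y = inn arc (S \ {x, y}) y + (if arc x y then 1 else 0) := by
    rw [inn_erase arc S y x hx, ← inn_erase_self arc hl (S.erase x) y, erase_pair]
  have e3 : inn arc (S.erase x) y = inn arc (S \ {x, y}) y := by
    rw [← inn_erase_self arc hl (S.erase x) y, erase_pair]
  have e4 : inn arc (S.erase y) x = inn arc (S \ {x, y}) x := by
    rw [← inn_erase_self arc hl (S.erase y) x, Finset.erase_right_comm, erase_pair]
  rw [e1, e2, e3, e4]
  unfold wgt
  by_cases hp : part x = part y
  · have a1 : ¬ arc x y := (h x y).1 hp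
    have a2 : ¬ arc y x := (h y x).1 hp.symm
    simp only [a1, a2, hp, if_true, if_false]
    ring
  · have a1 := (h x y).2 hp
    by_cases a2 : arc y x
    · have a3 : ¬ arc x y := fun h => a1.1 h a2
      simp only [a2, a3, hp, if_true, if_false]
      ring
    · have a3 : arc x y := a1.2 a2
      simp only [a2, a3, hp, if_true, if_false]
      ring

/-- number of elements of `S` in the part `p` -/
def cnt (part : V → ι) (S : Finset V) (p : ι) : ℕ := (S.filter (fun v => part v = p)).card

omit [DecidableEq ι] in
lemma mem_sdiff_pair {S : Finset V} {x y z : V} (hz : z ∈ S) (h1 : z ≠ x) (h2 : z ≠ y) :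
    z ∈ S \ {x, y} := by
  simp [hz, h1, h2]

lemma cnt_erase (part : V → ι) (S : Finset V) (x : V) (hx : x ∈ S) (p : ι) :
    cnt part S p = cnt part (S.erase x) p + (if part x = p then 1 else 0) := by
  unfold cnt
  by_cases h : part x = p
  · rw [if_pos h]
    have h2 : S.filter (fun v => part v = p) =
        insert x ((S.erase x).filter (fun v => part v = p)) := by
      ext u
      simp only [mem_filter, mem_insert, mem_erase]
      by_cases h3 : u = x
      · subst h3
        simp [hx, h]
      · simp [h3]
    rw [h2, Finset.card_insert_of_notMem]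
    simp
  · rw [if_neg h, add_zero]
    congr 1
    ext u
    simp only [mem_filter, mem_erase]
    constructor
    · rintro ⟨h1, h2⟩
      refine ⟨⟨?_, h1⟩, h2⟩
      rintro rfl
      exact h h2
    · rintro ⟨⟨_, h1⟩, h2⟩
      exact ⟨h1, h2⟩

lemma cnt_sdiff (part : V → ι) (S : Finset V) (x y : V) (hx : x ∈ S) (hy : y ∈ S) (hxy : x ≠ y)
    (p : ι) : cnt part S p = cnt part (S \ {x, y}) p + (if part x = p then 1 else 0) +
      (if part y = p then 1 else 0) := by
  rw [cnt_erase part S x hx, cnt_erase part (S.erase x) y (mem_erase.2 ⟨hxy.symm, hy⟩), erase_pair]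
  ring

/-- a pair is valid if it lies in one part or in two parts with odd intersection with `S` -/
def val (part : V → ι) (S : Finset V) (x y : V) : Prop :=
  part x = part y ∨ (Odd (cnt part S (part x)) ∧ Odd (cnt part S (part y)))

instance (part : V → ι) (S : Finset V) (x y : V) : Decidable (val part S x y) := by
  unfold val
  infer_instance

omit [DecidableEq V] in
lemma val_symm (part : V → ι) (S : Finset V) (x y : V) : val part S x y ↔ val part S y x := by
  unfold val
  constructor
  · rintro (h | h)
    · exact Or.inl h.symm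
    · exact Or.inr h.symm
  · rintro (h | h)
    · exact Or.inl h.symm
    · exact Or.inr h.symm

lemma val_comm (part : V → ι) (S : Finset V) {x y z w : V} (hx : x ∈ S) (hy : y ∈ S) (hz : z ∈ S)
    (hw : w ∈ S) (hxy : x ≠ y) (hzw : z ≠ w) :
    (val part S x y ∧ val part (S \ {x, y}) z w) → (val part S z w ∧ val part (S \ {z, w}) x y) := by
  have c1 := cnt_sdiff part S x y hx hy hxy (part z)
  have c2 := cnt_sdiff part S x y hx hy hxy (part w)
  have c3 := cnt_sdiff part S z w hz hw hzw (part x)
  have c4 := cnt_sdiff part S z w hz hw hzw (part y)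
  unfold val
  simp only [Nat.odd_iff]
  generalize part x = a at *
  generalize part y = b at *
  generalize part z = c at *
  generalize part w = d at *
  by_cases h1 : a = b
  · subst h1
    by_cases h2 : c = d
    · subst h2
      simp
    · by_cases h3 : a = c
      · subst h3
        have h4 : ¬ d = a := fun h => h2 h.symm
        simp [h2, h4] at c1 c2 c3 c4 ⊢
        omega
      · have h3' : ¬ c = a := fun h => h3 h.symm
        by_cases h4 : a = d
        · subst h4
          simp [h2, h3] at c1 c2 c3 c4 ⊢
          omega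
        · have h4' : ¬ d = a := fun h => h4 h.symm
          simp [h2, h3, h3', h4, h4'] at c1 c2 c3 c4 ⊢
          omega
  · by_cases h2 : c = d
    · subst h2
      by_cases h3 : a = c
      · subst h3
        have h4 : ¬ b = a := fun h => h1 h.symm
        simp [h1, h4] at c1 c2 c3 c4 ⊢
        omega
      · have h3' : ¬ c = a := fun h => h3 h.symm
        by_cases h4 : b = c
        · subst h4
          simp [h1, h3'] at c1 c2 c3 c4 ⊢
          omega
        · have h4' : ¬ c = b := fun h => h4 h.symm
          simp [h1, h3, h3', h4, h4'] at c1 c2 c3 c4 ⊢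
          omega
    · rintro ⟨h3 | h3, h4 | h4⟩
      · exact absurd h3 h1
      · exact absurd h3 h1
      · exact absurd h4 h2
      · have n1 : a ≠ c := by
          rintro rfl
          have h5 : ¬ b = a := fun h => h1 h.symm
          simp [h5] at c1
          omega
        have n2 : a ≠ d := by
          rintro rfl
          have h5 : ¬ b = a := fun h => h1 h.symm
          simp [h5] at c2
          omega
        have n3 : b ≠ c := by
          rintro rfl
          simp [h1] at c1
          omega
        have n4 : b ≠ d := by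
          rintro rfl
          simp [h1] at c2
          omega
        simp [n1, n2, n3, n4, n1.symm, n2.symm, n3.symm, n4.symm, h1, h2] at c1 c2 c3 c4 ⊢
        omega

/-- sign of a pair, zero for invalid pairs -/
noncomputable def cc (part : V → ι) (arc : V → V → Prop) (S : Finset V) (x y : V) : ℤ :=
  if val part S x y then (-1) ^ (inn arc (S \ {x, y}) x + inn arc (S \ {x, y}) y) else 0

lemma cc_symm (part : V → ι) (arc : V → V → Prop) (S : Finset V) (x y : V) :
    cc part arc S x y = cc part arc S y x := by
  unfold cc
  simp only [val_symm part S x y]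
  rw [Finset.pair_comm y x, add_comm]

lemma sdiff_comm4 (S : Finset V) (x y z w : V) :
    (S \ {x, y}) \ {z, w} = (S \ {z, w}) \ {x, y} := by
  ext v
  simp only [mem_sdiff, mem_insert, mem_singleton]
  tauto

open Classical in
lemma inn_sdiff (arc : V → V → Prop) (S : Finset V) (x z w : V) (hz : z ∈ S) (hw : w ∈ S)
    (hzw : z ≠ w) : inn arc S x = inn arc (S \ {z, w}) x + (if arc z x then 1 else 0) +
      (if arc w x then 1 else 0) := by
  rw [inn_erase arc S x z hz, inn_erase arc (S.erase z) x w (mem_erase.2 ⟨hzw.symm, hw⟩),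
    erase_pair]
  ring

lemma cc_comm {part : V → ι} {arc : V → V → Prop} (h : IsOri part arc) (S : Finset V)
    {x y z w : V} (hx : x ∈ S) (hy : y ∈ S) (hz : z ∈ S)
    (hw : w ∈ S) (hxy : x ≠ y) (hzw : z ≠ w) (hxz : x ≠ z) (hxw : x ≠ w) (hyz : y ≠ z)
    (hyw : y ≠ w) : cc part arc S x y * cc part arc (S \ {x, y}) z w =
      cc part arc S z w * cc part arc (S \ {z, w}) x y := by
  classical
  unfold cc
  by_cases hv : val part S x y ∧ val part (S \ {x, y}) z w
  · have hv' := val_comm part S hx hy hz hw hxy hzw hv
    rw [if_pos hv.1, if_pos hv.2, if_pos hv'.1, if_pos hv'.2, ← pow_add, ← pow_add,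
      sdiff_comm4 S x y z w]
    set T := (S \ {z, w}) \ {x, y} with hT
    have i1 := inn_sdiff arc (S \ {x, y}) x z w (mem_sdiff_pair hz hxz.symm hyz.symm)
      (mem_sdiff_pair hw hxw.symm hyw.symm) hzw
    have i2 := inn_sdiff arc (S \ {x, y}) y z w (mem_sdiff_pair hz hxz.symm hyz.symm)
      (mem_sdiff_pair hw hxw.symm hyw.symm) hzw
    have i3 := inn_sdiff arc (S \ {z, w}) z x y (mem_sdiff_pair hx hxz hxw)
      (mem_sdiff_pair hy hyz hyw) hxy
    have i4 := inn_sdiff arc (S \ {z, w}) w x y (mem_sdiff_pair hx hxz hxw)
      (mem_sdiff_pair hy hyz hyw) hxy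
    rw [sdiff_comm4 S x y z w] at i1 i2
    rw [← hT] at i1 i2 i3 i4
    rw [i1, i2, i3, i4]
    rw [neg_one_pow_eq_pow_mod_two, neg_one_pow_eq_pow_mod_two (n := _ + _ + (_ + _))]
    congr 1
    -- edges between the two pairs
    have ed : ∀ u v, ((if arc u v then 1 else 0) + (if arc v u then 1 else 0) : ℕ) =
        if part u = part v then 0 else 1 := by
      intro u v
      by_cases hp : part u = part v
      · have a1 : ¬ arc u v := (h u v).1 hp
        have a2 : ¬ arc v u := (h v u).1 hp.symm
        simp [a1, a2, hp]
      · have a1 := (h u v).2 hp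
        by_cases a2 : arc v u
        · have a3 : ¬ arc u v := fun h => a1.1 h a2
          simp [a2, a3, hp]
        · have a3 : arc u v := a1.2 a2
          simp [a2, a3, hp]
    have e1 := ed x z
    have e2 := ed x w
    have e3 := ed y z
    have e4 := ed y w
    have par : ((if part x = part z then 0 else 1) + (if part x = part w then 0 else 1) +
        (if part y = part z then 0 else 1) + (if part y = part w then 0 else 1) : ℕ) % 2 = 0 := by
      obtain ⟨v1, v2⟩ := hv
      obtain ⟨v3, v4⟩ := hv'
      have c1 := cnt_sdiff part S x y hx hy hxy (part z)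
      have c2 := cnt_sdiff part S x y hx hy hxy (part w)
      unfold val at v1 v2 v3 v4
      simp only [Nat.odd_iff] at v1 v2 v3 v4
      by_cases h1 : part x = part y
      · rw [h1]
        omega
      · by_cases h2 : part z = part w
        · rw [h2]
          omega
        · have v1' := v1.resolve_left h1
          have v2' := v2.resolve_left h2
          have v3' := v3.resolve_left h2
          have n1 : part x ≠ part z := by
            intro h
            have h5 : ¬ part y = part z := fun h' => h1 (h.trans h'.symm)
            simp [h, h5] at c1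
            omega
          have n2 : part x ≠ part w := by
            intro h
            have h5 : ¬ part y = part w := fun h' => h1 (h.trans h'.symm)
            simp [h, h5] at c2
            omega
          have n3 : part y ≠ part z := by
            intro h
            have h5 : ¬ part x = part z := n1
            simp [h, h5] at c1
            omega
          have n4 : part y ≠ part w := by
            intro h
            have h5 : ¬ part x = part w := n2
            simp [h, h5] at c2
            omega
          simp [n1, n2, n3, n4]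
    omega
  · have hv' : ¬ (val part S z w ∧ val part (S \ {z, w}) x y) := by
      intro h'
      exact hv (val_comm part S hz hw hx hy hzw hxy h')
    rw [not_and_or] at hv hv'
    rcases hv with h1 | h1 <;> rcases hv' with h2 | h2 <;> simp [h1, h2]

/-- signed count of the valid matchings -/
noncomputable def GG (part : V → ι) (arc : V → V → Prop) : ℕ → Finset V → ℤ
  | 0, _ => 1
  | h + 1, S => if hS : S.Nonempty then ∑ y ∈ S.erase hS.choose,
      cc part arc S hS.choose y * GG part arc h (S \ {hS.choose, y}) else 0

lemma card_sdiff_pair {S : Finset V} {x y : V} (hx : x ∈ S) (hy : y ∈ S) (hxy : x ≠ y) {n : ℕ}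
    (h : S.card = n + 2) : (S \ {x, y}).card = n := by
  rw [← erase_pair, Finset.card_erase_of_mem (mem_erase.2 ⟨hxy.symm, hy⟩),
    Finset.card_erase_of_mem hx, h]
  rfl

/-- the sum from the point of view of `x` -/
noncomputable def Gx (part : V → ι) (arc : V → V → Prop) (h : ℕ) (S : Finset V) (x : V) : ℤ :=
  ∑ y ∈ S.erase x, cc part arc S x y * GG part arc h (S \ {x, y})

lemma GG_choose (part : V → ι) (arc : V → V → Prop) (h : ℕ) (S : Finset V) (hS : S.Nonempty) :
    GG part arc (h + 1) S = Gx part arc h S hS.choose := by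
  simp only [GG, Gx]
  rw [dif_pos hS]

lemma Gx_indep {part : V → ι} {arc : V → V → Prop} (hA : IsOri part arc) :
    ∀ (h : ℕ) (S : Finset V), S.card = 2 * h + 2 → ∀ x ∈ S, ∀ z ∈ S,
      Gx part arc h S x = Gx part arc h S z := by
  intro h
  induction h with
  | zero =>
    intro S hS x hx z hz
    by_cases hxz : x = z
    · rw [hxz]
    · have h2 := card_sdiff_pair hx hz hxz (n := 0) (by simpa using hS)
      rw [Finset.card_eq_zero] at h2
      have e1 : S.erase x = {z} := by
        ext v
        have hv : v ∈ S \ {x, z} ↔ v ∈ (∅ : Finset V) := by rw [h2]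
        simp only [mem_sdiff, mem_insert, mem_singleton, Finset.notMem_empty, iff_false,
          not_and, not_not] at hv
        simp only [mem_erase, mem_singleton]
        constructor
        · rintro ⟨h3, h4⟩
          exact (hv h4).resolve_left h3
        · rintro rfl
          exact ⟨fun h => hxz h.symm, hz⟩
      have e2 : S.erase z = {x} := by
        ext v
        have hv : v ∈ S \ {x, z} ↔ v ∈ (∅ : Finset V) := by rw [h2]
        simp only [mem_sdiff, mem_insert, mem_singleton, Finset.notMem_empty, iff_false,
          not_and, not_not] at hv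
        simp only [mem_erase, mem_singleton]
        constructor
        · rintro ⟨h3, h4⟩
          exact (hv h4).resolve_right h3
        · rintro rfl
          exact ⟨hxz, hx⟩
      unfold Gx
      rw [e1, e2, Finset.sum_singleton, Finset.sum_singleton, cc_symm part arc S x z]
      simp [GG]
  | succ h ih =>
    intro S hS x hx z hz
    by_cases hxz : x = z
    · rw [hxz]
    -- expansion of the inner terms
    have expand : ∀ a b y : V, a ∈ S → y ∈ S → b ∈ S → a ≠ y → b ≠ a → b ≠ y →
        GG part arc (h + 1) (S \ {a, y}) = ∑ w ∈ (S \ {a, y}).erase b,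
          cc part arc (S \ {a, y}) b w * GG part arc h ((S \ {a, y}) \ {b, w}) := by
      intro a b y ha hy hb hay hba hby
      have hb' : b ∈ S \ {a, y} := mem_sdiff_pair hb hba hby
      have hc : (S \ {a, y}).card = 2 * h + 2 := card_sdiff_pair ha hy hay (by rw [hS]; ring)
      have hne : (S \ {a, y}).Nonempty := ⟨b, hb'⟩
      rw [GG_choose part arc h _ hne, ih _ hc _ hne.choose_spec b hb']
      rfl
    have split : ∀ a b : V, a ∈ S → b ∈ S → a ≠ b → Gx part arc (h + 1) S a =
        cc part arc S a b * GG part arc (h + 1) (S \ {a, b}) +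
        ∑ y ∈ S \ {a, b}, ∑ w ∈ (S \ {a, b}).erase y,
          cc part arc S a y * (cc part arc (S \ {a, y}) b w *
            GG part arc h ((S \ {a, y}) \ {b, w})) := by
      intro a b ha hb hab
      unfold Gx
      rw [← Finset.add_sum_erase (S.erase a) _ (mem_erase.2 ⟨hab.symm, hb⟩), erase_pair]
      congr 1
      refine Finset.sum_congr rfl fun y hy => ?_
      simp only [mem_sdiff, mem_insert, mem_singleton, not_or] at hy
      obtain ⟨hyS, hya, hyb⟩ := hy
      rw [expand a b y ha hyS hb (Ne.symm hya) hab.symm (Ne.symm hyb), Finset.mul_sum]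
      refine Finset.sum_congr ?_ fun w _ => rfl
      ext v
      simp only [mem_erase, mem_sdiff, mem_insert, mem_singleton]
      tauto
    rw [split x z hx hz hxz, split z x hz hx (Ne.symm hxz), cc_symm part arc S z x,
      Finset.pair_comm z x]
    congr 1
    rw [Finset.sum_comm' (t' := S \ {x, z}) (s' := fun w => (S \ {x, z}).erase w)]
    · refine Finset.sum_congr rfl fun w hw => ?_
      refine Finset.sum_congr rfl fun y hy => ?_
      have hyw : y ≠ w := Finset.ne_of_mem_erase hy
      have hy' := Finset.mem_of_mem_erase hy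
      simp only [mem_sdiff, mem_insert, mem_singleton, not_or] at hy' hw
      rw [← mul_assoc, ← mul_assoc, sdiff_comm4 S x y z w,
        cc_comm hA S hx hy'.1 hz hw.1 (Ne.symm hy'.2.1) (Ne.symm hw.2.2) hxz (Ne.symm hw.2.1)
          hy'.2.2 hyw]
    · intro a b
      simp only [mem_erase, ne_eq]
      constructor
      · rintro ⟨h1, h2, h3⟩
        exact ⟨⟨fun h => h2 h.symm, h1⟩, h3⟩
      · rintro ⟨⟨h1, h2⟩, h3⟩
        exact ⟨h2, fun h => h1 h.symm, h3⟩

lemma GG_eq {part : V → ι} {arc : V → V → Prop} (hA : IsOri part arc) (h : ℕ) (S : Finset V)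
    (hS : S.card = 2 * h + 2) (x : V) (hx : x ∈ S) :
    GG part arc (h + 1) S = Gx part arc h S x := by
  have hne : S.Nonempty := ⟨x, hx⟩
  rw [GG_choose part arc h S hne]
  exact Gx_indep hA h S hS _ hne.choose_spec x hx

omit [DecidableEq V] in
/-- the number of vertices in parts meeting `S` in an odd number of vertices -/
lemma even_part (part : V → ι) (S : Finset V) :
    Even ((S.filter (fun v => ¬ Odd (cnt part S (part v)))).card) := by
  classical
  rw [Finset.card_eq_sum_card_image part]
  refine Finset.even_sum _ fun p hp => ?_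
  rw [Finset.mem_image] at hp
  obtain ⟨v, hv, rfl⟩ := hp
  rw [mem_filter] at hv
  have : ((S.filter (fun v => ¬ Odd (cnt part S (part v)))).filter
      (fun u => part u = part v)) = S.filter (fun u => part u = part v) := by
    ext u
    simp only [mem_filter]
    constructor
    · rintro ⟨⟨h1, _⟩, h2⟩
      exact ⟨h1, h2⟩
    · rintro ⟨h1, h2⟩
      refine ⟨⟨h1, ?_⟩, h2⟩
      rw [h2]
      exact hv.2
  rw [this]
  exact Nat.not_odd_iff_even.1 hv.2

lemma odd_valid (part : V → ι) (S : Finset V) (hS : Even S.card) (x : V) (hx : x ∈ S) :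
    Odd ((S.erase x).filter (fun y => val part S x y)).card := by
  classical
  by_cases ho : Odd (cnt part S (part x))
  · have e1 : (S.filter (fun v => Odd (cnt part S (part v)))) =
        insert x ((S.erase x).filter (fun y => val part S x y)) := by
      ext v
      simp only [mem_filter, mem_insert, mem_erase, val]
      constructor
      · rintro ⟨h1, h2⟩
        by_cases h3 : v = x
        · exact Or.inl h3
        · exact Or.inr ⟨⟨h3, h1⟩, Or.inr ⟨ho, h2⟩⟩
      · rintro (rfl | ⟨⟨_, h2⟩, h3 | h3⟩)
        · exact ⟨hx, ho⟩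
        · exact ⟨h2, by rw [← h3]; exact ho⟩
        · exact ⟨h2, h3.2⟩
    have e2 := Finset.card_filter_add_card_filter_not (s := S)
      (fun v => Odd (cnt part S (part v)))
    have e3 := even_part part S
    rw [e1, Finset.card_insert_of_notMem (by simp)] at e2
    rw [Nat.even_iff] at hS e3
    rw [Nat.odd_iff]
    omega
  · have e1 : (S.filter (fun v => part v = part x)) =
        insert x ((S.erase x).filter (fun y => val part S x y)) := by
      ext v
      simp only [mem_filter, mem_insert, mem_erase, val]
      constructor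
      · rintro ⟨h1, h2⟩
        by_cases h3 : v = x
        · exact Or.inl h3
        · exact Or.inr ⟨⟨h3, h1⟩, Or.inl h2.symm⟩
      · rintro (rfl | ⟨⟨_, h2⟩, h3 | h3⟩)
        · exact ⟨hx, rfl⟩
        · exact ⟨h2, h3.symm⟩
        · exact absurd h3.1 ho
    have e2 : cnt part S (part x) = ((S.erase x).filter (fun y => val part S x y)).card + 1 := by
      unfold cnt
      rw [e1, Finset.card_insert_of_notMem (by simp)]
    rw [Nat.not_odd_iff_even, Nat.even_iff] at ho
    rw [Nat.odd_iff]
    omega

lemma GG_odd {part : V → ι} {arc : V → V → Prop} (hA : IsOri part arc) :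
    ∀ (h : ℕ) (S : Finset V), S.card = 2 * h → Odd (GG part arc h S) := by
  classical
  intro h
  induction h with
  | zero =>
    intro S _
    simp [GG]
  | succ h ih =>
    intro S hS
    have hne : S.Nonempty := by
      rw [← Finset.card_pos]
      omega
    obtain ⟨x, hx⟩ := hne
    rw [GG_eq hA h S (by rw [hS]; ring) x hx]
    unfold Gx
    have hterm : ∀ y ∈ S.erase x, ((cc part arc S x y * GG part arc h (S \ {x, y}) : ℤ) : ZMod 2)
        = if val part S x y then 1 else 0 := by
      intro y hy
      have hy1 := Finset.ne_of_mem_erase hy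
      have hy2 := Finset.mem_of_mem_erase hy
      have ho := ih (S \ {x, y}) (card_sdiff_pair hx hy2 (Ne.symm hy1) (by rw [hS]; ring))
      have ho' : ((GG part arc h (S \ {x, y}) : ℤ) : ZMod 2) = 1 := by
        have := (ZMod.intCast_eq_intCast_iff_dvd_sub (GG part arc h (S \ {x, y})) 1 2).2
        rw [Int.cast_one] at this
        apply this
        obtain ⟨k, hk⟩ := ho
        exact ⟨-k, by rw [hk]; push_cast; ring⟩
      rw [Int.cast_mul, ho', mul_one]
      unfold cc
      split_ifs
      · push_cast
        have : (-1 : ZMod 2) = 1 := by decide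
        rw [this, one_pow]
      · simp
    have hsum : ((∑ y ∈ S.erase x, cc part arc S x y * GG part arc h (S \ {x, y}) : ℤ) : ZMod 2)
        = 1 := by
      rw [Int.cast_sum, Finset.sum_congr rfl hterm, Finset.sum_boole]
      have ho := odd_valid part S (by rw [hS]; simp) x hx
      obtain ⟨k, hk⟩ := ho
      rw [hk]
      push_cast
      have : (2 : ZMod 2) = 0 := by decide
      rw [this]
      ring
    by_contra hno
    rw [Int.not_odd_iff_even] at hno
    obtain ⟨k, hk⟩ := hno
    rw [hk] at hsum
    push_cast at hsum
    rw [← two_mul] at hsum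
    have : (2 : ZMod 2) = 0 := by decide
    rw [this, zero_mul] at hsum
    exact absurd hsum (by decide)

section Count

variable [Fintype ι]

/-- the number of parts meeting `S` in an odd number of vertices -/
def rr (part : V → ι) (S : Finset V) : ℕ := (univ.filter (fun i => Odd (cnt part S i))).card

lemma rr_same (part : V → ι) (S : Finset V) {x y : V} (hx : x ∈ S) (hy : y ∈ S) (hxy : x ≠ y)
    (h : part x = part y) : rr part S = rr part (S \ {x, y}) := by
  unfold rr
  congr 1
  ext i
  simp only [mem_filter, mem_univ, true_and]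
  have := cnt_sdiff part S x y hx hy hxy i
  rw [this, h]
  simp only [Nat.odd_iff]
  split_ifs <;> omega

lemma rr_diff (part : V → ι) (S : Finset V) {x y : V} (hx : x ∈ S) (hy : y ∈ S) (hxy : x ≠ y)
    (h : part x ≠ part y) (h1 : Odd (cnt part S (part x))) (h2 : Odd (cnt part S (part y))) :
    rr part S = rr part (S \ {x, y}) + 2 := by
  have key := cnt_sdiff part S x y hx hy hxy
  have e : (univ.filter (fun i => Odd (cnt part S i))) =
      insert (part x) (insert (part y) (univ.filter (fun i => Odd (cnt part (S \ {x, y}) i)))) := by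
    ext i
    simp only [mem_filter, mem_univ, true_and, mem_insert]
    have k := key i
    by_cases a : i = part x
    · subst a
      simp [h1]
    · by_cases b : i = part y
      · subst b
        simp [h2]
      · have a' : ¬ part x = i := fun h => a h.symm
        have b' : ¬ part y = i := fun h => b h.symm
        simp only [a', b', if_false, add_zero] at k
        rw [k]
        simp [a, b]
  have k1 := key (part x)
  have k2 := key (part y)
  simp only [if_true, Ne.symm h, h, if_false] at k1 k2
  unfold rr
  rw [e, Finset.card_insert_of_notMem, Finset.card_insert_of_notMem]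
  · simp only [mem_filter, mem_univ, true_and]
    rw [Nat.odd_iff] at *
    omega
  · simp only [mem_filter, mem_univ, true_and, mem_insert, not_or]
    refine ⟨h, ?_⟩
    rw [Nat.odd_iff] at *
    omega

lemma rr_inv (part : V → ι) (S : Finset V) {x y : V} (hx : x ∈ S) (hy : y ∈ S) (hxy : x ≠ y)
    (h : part x ≠ part y) (h1 : ¬ Odd (cnt part S (part x))) :
    rr part S ≤ rr part (S \ {x, y}) := by
  have key := cnt_sdiff part S x y hx hy hxy
  have hxR : part x ∈ (univ.filter (fun i => Odd (cnt part (S \ {x, y}) i))) := by
    simp only [mem_filter, mem_univ, true_and]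
    have k1 := key (part x)
    simp only [if_true, Ne.symm h, if_false] at k1
    rw [Nat.odd_iff] at *
    omega
  have hsub : (univ.filter (fun i => Odd (cnt part S i))) ⊆
      insert (part y) ((univ.filter (fun i => Odd (cnt part (S \ {x, y}) i))).erase (part x)) := by
    intro i
    simp only [mem_filter, mem_univ, true_and, mem_insert, mem_erase]
    intro hi
    by_cases b : i = part y
    · exact Or.inl b
    · right
      have a : i ≠ part x := by
        rintro rfl
        exact h1 hi
      refine ⟨a, ?_⟩
      have k := key i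
      have a' : ¬ part x = i := fun h => a h.symm
      have b' : ¬ part y = i := fun h => b h.symm
      simp only [a', b', if_false, add_zero] at k
      rw [← k]
      exact hi
  have h3 := Finset.card_le_card hsub
  have h4 := Finset.card_insert_le (part y)
    ((univ.filter (fun i => Odd (cnt part (S \ {x, y}) i))).erase (part x))
  rw [Finset.card_erase_of_mem hxR] at h4
  have h5 : 0 < (univ.filter (fun i => Odd (cnt part (S \ {x, y}) i))).card :=
    Finset.card_pos.2 ⟨_, hxR⟩
  unfold rr
  omega

lemma rr_not_valid (part : V → ι) (S : Finset V) {x y : V} (hx : x ∈ S) (hy : y ∈ S)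
    (hxy : x ≠ y) (h : ¬ val part S x y) : rr part S ≤ rr part (S \ {x, y}) := by
  unfold val at h
  rw [not_or, not_and_or] at h
  rcases h with ⟨h1, h2 | h2⟩
  · exact rr_inv part S hx hy hxy h1 h2
  · rw [Finset.pair_comm]
    exact rr_inv part S hy hx (Ne.symm hxy) (Ne.symm h1) h2

/-- the main induction -/
lemma pol_factor {part : V → ι} {arc : V → V → Prop} (hA : IsOri part arc) :
    ∀ (h : ℕ) (S : Finset V), S.card = 2 * h → ∃ Q : ℂ[X],
      pol ℂ arc S = (1 + X) ^ (rr part S / 2) * Q ∧
      Q.eval (-1) * 2 ^ (rr part S / 2) = 2 ^ h * (h.factorial : ℂ) * (GG part arc h S : ℂ) := by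
  intro h
  induction h with
  | zero =>
    intro S hS
    have hS' : S = ∅ := by
      rw [← Finset.card_eq_zero]
      simpa using hS
    subst hS'
    refine ⟨1, ?_, ?_⟩
    · rw [pol_empty]
      simp [rr, cnt]
    · simp [rr, cnt, GG]
  | succ h ih =>
    intro S hS
    have hterm : ∀ x ∈ S, ∀ y ∈ S.erase x, ∃ Q : ℂ[X],
        X ^ (inn arc (S \ {x, y}) x + inn arc (S \ {x, y}) y) * wgt ℂ part x y *
          pol ℂ arc (S \ {x, y}) = (1 + X) ^ (rr part S / 2) * Q ∧
        Q.eval (-1) * 2 ^ (rr part S / 2) = 2 ^ (h + 1) * (h.factorial : ℂ) *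
          ((cc part arc S x y * GG part arc h (S \ {x, y}) : ℤ) : ℂ) := by
      intro x hx y hy
      have hxy : x ≠ y := Ne.symm (Finset.ne_of_mem_erase hy)
      have hy' := Finset.mem_of_mem_erase hy
      obtain ⟨Q, hQ1, hQ2⟩ := ih (S \ {x, y}) (card_sdiff_pair hx hy' hxy (by rw [hS]; ring))
      rw [hQ1]
      set e := inn arc (S \ {x, y}) x + inn arc (S \ {x, y}) y with he
      unfold wgt cc
      rw [← he]
      by_cases hp : part x = part y
      · have hr := rr_same part S hx hy' hxy hp
        have hv : val part S x y := Or.inl hp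
        rw [← hr] at hQ1 hQ2 ⊢
        rw [if_pos hp, if_pos hv]
        refine ⟨X ^ e * 2 * Q, by ring, ?_⟩
        simp only [eval_mul, eval_pow, eval_X, eval_ofNat]
        push_cast
        calc (-1 : ℂ) ^ e * 2 * eval (-1) Q * 2 ^ (rr part S / 2)
            = (-1 : ℂ) ^ e * 2 * (eval (-1) Q * 2 ^ (rr part S / 2)) := by ring
          _ = _ := by rw [hQ2]; ring
      · by_cases hv : val part S x y
        · have hv' : Odd (cnt part S (part x)) ∧ Odd (cnt part S (part y)) := hv.resolve_left hp
          have hr := rr_diff part S hx hy' hxy hp hv'.1 hv'.2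
          have hr2 : rr part S / 2 = rr part (S \ {x, y}) / 2 + 1 := by omega
          rw [hr2, if_neg hp, if_pos hv]
          refine ⟨X ^ e * Q, by ring, ?_⟩
          simp only [eval_mul, eval_pow, eval_X]
          push_cast
          calc (-1 : ℂ) ^ e * eval (-1) Q * 2 ^ (rr part (S \ {x, y}) / 2 + 1)
              = (-1 : ℂ) ^ e * 2 * (eval (-1) Q * 2 ^ (rr part (S \ {x, y}) / 2)) := by ring
            _ = _ := by rw [hQ2]; ring
        · have hr := rr_not_valid part S hx hy' hxy hv
          obtain ⟨d, hd⟩ : ∃ d, rr part (S \ {x, y}) / 2 = rr part S / 2 + d :=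
            ⟨rr part (S \ {x, y}) / 2 - rr part S / 2, by omega⟩
          rw [hd, if_neg hp, if_neg hv]
          refine ⟨X ^ e * (1 + X) * (1 + X) ^ d * Q, by ring, ?_⟩
          simp only [eval_mul, eval_pow, eval_X, eval_add, eval_one]
          simp
    choose! Q hQ1 hQ2 using hterm
    refine ⟨C (2⁻¹) * ∑ x ∈ S, ∑ y ∈ S.erase x, Q x y, ?_, ?_⟩
    · have h2 := pol_two ℂ hA S (2 * h) (by rw [hS]; ring)
      have h3 : (2 : ℂ[X]) * pol ℂ arc S =
          (1 + X) ^ (rr part S / 2) * ∑ x ∈ S, ∑ y ∈ S.erase x, Q x y := by
        rw [h2, Finset.mul_sum]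
        refine Finset.sum_congr rfl fun x hx => ?_
        rw [Finset.mul_sum]
        exact Finset.sum_congr rfl fun y hy => hQ1 x hx y hy
      have h4 : pol ℂ arc S = C (2⁻¹) * (2 * pol ℂ arc S) := by
        rw [← mul_assoc]
        have : (C (2⁻¹) * 2 : ℂ[X]) = 1 := by
          have h5 : (2 : ℂ[X]) = C 2 := (map_ofNat C 2).symm
          rw [h5, ← C_mul]
          simp
        rw [this, one_mul]
      rw [h4, h3]
      ring
    · rw [eval_mul, eval_C, eval_finsetSum, mul_assoc, Finset.sum_mul]
      have h5 : ∀ x ∈ S, eval (-1) (∑ y ∈ S.erase x, Q x y) * 2 ^ (rr part S / 2) =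
          2 ^ (h + 1) * (h.factorial : ℂ) * (GG part arc (h + 1) S : ℂ) := by
        intro x hx
        rw [eval_finsetSum, Finset.sum_mul, GG_eq hA h S (by rw [hS]; ring) x hx]
        unfold Gx
        rw [Int.cast_sum, Finset.mul_sum]
        exact Finset.sum_congr rfl fun y hy => hQ2 x hx y hy
      rw [Finset.sum_congr rfl h5, Finset.sum_const, hS, nsmul_eq_mul, Nat.factorial_succ]
      push_cast
      ring

lemma mult_of_factor {p Q : ℂ[X]} {k : ℕ} (h : p = (1 + X) ^ k * Q) (hQ : Q.eval (-1) ≠ 0) :
    rootMultiplicity (-1) p = k := by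
  have hX : (1 + X : ℂ[X]) = X - C (-1) := by
    rw [C_neg, C_1]
    ring
  have hQ0 : Q ≠ 0 := by
    rintro rfl
    simp at hQ
  have h1 : ((X - C (-1)) ^ k : ℂ[X]) ≠ 0 := pow_ne_zero _ (X_sub_C_ne_zero _)
  rw [h, hX, rootMultiplicity_mul (mul_ne_zero h1 hQ0), rootMultiplicity_X_sub_C_pow,
    rootMultiplicity_eq_zero (by simpa [IsRoot] using hQ), add_zero]

lemma mult_even {part : V → ι} {arc : V → V → Prop} (hA : IsOri part arc) (h : ℕ)
    (S : Finset V) (hS : S.card = 2 * h) :
    rootMultiplicity (-1) (pol ℂ arc S) = rr part S / 2 ∧ pol ℂ arc S ≠ 0 := by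
  obtain ⟨Q, hQ1, hQ2⟩ := pol_factor hA h S hS
  have hQ : Q.eval (-1) ≠ 0 := by
    intro h0
    rw [h0, zero_mul] at hQ2
    have h1 : (GG part arc h S : ℂ) ≠ 0 := by
      have := GG_odd hA h S hS
      have h2 : GG part arc h S ≠ 0 := by
        rintro h3
        rw [h3] at this
        exact absurd this (by decide)
      exact_mod_cast h2
    have h2 : ((h.factorial : ℕ) : ℂ) ≠ 0 := by exact_mod_cast Nat.factorial_ne_zero h
    have h3 : (2 : ℂ) ^ h ≠ 0 := pow_ne_zero _ two_ne_zero
    exact (mul_ne_zero (mul_ne_zero h3 h2) h1) hQ2.symm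
  refine ⟨mult_of_factor hQ1 hQ, ?_⟩
  rw [hQ1]
  apply mul_ne_zero
  · apply pow_ne_zero
    have hX : (1 + X : ℂ[X]) = X - C (-1) := by
      rw [C_neg, C_1]
      ring
    rw [hX]
    exact X_sub_C_ne_zero _
  · rintro rfl
    simp at hQ

omit [DecidableEq V] in
lemma rr_parity (part : V → ι) (S : Finset V) : Odd (rr part S) ↔ Odd S.card := by
  have h1 : S.card = ∑ i : ι, cnt part S i := by
    unfold cnt
    exact Finset.card_eq_sum_card_fiberwise (fun x _ => Finset.mem_univ _)
  rw [h1, Finset.odd_sum_iff_odd_card_odd]
  rfl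

/-- the digraph with an additional vertex dominating all others -/
def arcO (arc : V → V → Prop) : Option V → Option V → Prop
  | none, none => False
  | none, some _ => True
  | some _, none => False
  | some u, some v => arc u v

omit [DecidableEq V] [DecidableEq ι] [Fintype ι] in
lemma isOri_option {part : V → ι} {arc : V → V → Prop} (hA : IsOri part arc) :
    IsOri (Option.map part) (arcO arc) := by
  rintro (_ | u) (_ | v)
  · simp [arcO]
  · simp [arcO]
  · simp [arcO]
  · simpa [arcO] using hA u v

omit [DecidableEq V] [DecidableEq ι] [Fintype ι] in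
lemma pol_map (arc : V → V → Prop) (S : Finset V) :
    pol ℂ (arcO arc) (S.map Function.Embedding.some) = pol ℂ arc S := by
  unfold pol
  rw [Finset.card_map]
  refine (eul_iso ℂ S.card _ _ (Equiv.ofBijective (fun v : S => (⟨some v.1, by
    simp⟩ : (S.map Function.Embedding.some : Finset (Option V)))) ⟨?_, ?_⟩) ?_).symm
  · intro u v huv
    have := congrArg Subtype.val huv
    exact Subtype.ext (Option.some_injective _ this)
  · rintro ⟨v, hv⟩
    rw [Finset.mem_map] at hv
    obtain ⟨u, hu, rfl⟩ := hv
    exact ⟨⟨u, hu⟩, rfl⟩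
  · intro u v
    exact Iff.rfl

omit [DecidableEq ι] [Fintype ι] in
lemma pol_option {part : V → ι} {arc : V → V → Prop} (hA : IsOri part arc) :
    ∀ (n : ℕ) (S : Finset V), S.card = n →
      pol ℂ (arcO arc) (insert none (S.map Function.Embedding.some)) =
        (∑ i ∈ range (n + 1), X ^ i) * pol ℂ arc S := by
  classical
  intro n
  have hl' : ∀ v, ¬ arcO arc v v := fun v => (isOri_option hA v v).1 rfl
  have hl : ∀ v, ¬ arc v v := fun v => (hA v v).1 rfl
  have hn : ∀ S : Finset V, (none : Option V) ∉ S.map Function.Embedding.some := by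
    intro S
    simp
  have hinn : ∀ S : Finset V, inn (arcO arc) (insert none (S.map Function.Embedding.some)) none
      = 0 := by
    intro S
    unfold inn
    rw [Finset.card_eq_zero, Finset.filter_eq_empty_iff]
    rintro (_ | u) _
    · exact fun h => h
    · exact fun h => h
  have hinn2 : ∀ (S : Finset V) (x : V),
      inn (arcO arc) (insert none (S.map Function.Embedding.some)) (some x)
      = inn arc S x + 1 := by
    intro S x
    unfold inn
    have e : (insert none (S.map Function.Embedding.some)).filter
        (fun u => arcO arc u (some x)) =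
        insert none ((S.filter (fun u => arc u x)).map Function.Embedding.some) := by
      ext u
      rcases u with _ | u
      · simp [arcO]
      · simp [arcO]
    rw [e, Finset.card_insert_of_notMem (hn _), Finset.card_map]
  induction n with
  | zero =>
    intro S hS
    rw [Finset.card_eq_zero] at hS
    subst hS
    rw [pol_rec ℂ (arcO arc) hl' _ 0 (by simp)]
    simp only [Finset.map_empty, insert_empty_eq, Finset.sum_singleton]
    have h1 := hinn ∅
    simp only [Finset.map_empty, insert_empty_eq] at h1
    rw [h1]
    have h2 : ({none} : Finset (Option V)).erase none = ∅ := by simp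
    rw [h2, pol_empty, pol_empty]
    simp
  | succ n ih =>
    intro S hS
    rw [pol_rec ℂ (arcO arc) hl' _ (n + 1) (by
      rw [Finset.card_insert_of_notMem (hn _), Finset.card_map, hS])]
    rw [Finset.sum_insert (hn _), hinn, Finset.erase_insert (hn _), pol_map, Finset.sum_map]
    have h3 : ∀ x ∈ S, (X : ℂ[X]) ^ inn (arcO arc) (insert none (S.map Function.Embedding.some))
        (Function.Embedding.some x) * pol ℂ (arcO arc)
          ((insert none (S.map Function.Embedding.some)).erase (Function.Embedding.some x)) =
        (X * ∑ i ∈ range (n + 1), X ^ i) * (X ^ inn arc S x * pol ℂ arc (S.erase x)) := by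
      intro x hx
      have e : (insert none (S.map Function.Embedding.some)).erase (Function.Embedding.some x) =
          insert none ((S.erase x).map Function.Embedding.some) := by
        ext u
        rcases u with _ | u
        · simp
        · simp
      rw [e, ih (S.erase x) (by rw [Finset.card_erase_of_mem hx, hS]; rfl)]
      have : inn (arcO arc) (insert none (S.map Function.Embedding.some))
        (Function.Embedding.some x) = inn arc S x + 1 := hinn2 S x
      rw [this]
      ring
    rw [Finset.sum_congr rfl h3, ← Finset.mul_sum, ← pol_rec ℂ arc hl S n hS]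
    rw [Finset.sum_range_succ' (fun i => (X : ℂ[X]) ^ i) (n + 1)]
    have h4 : ∑ i ∈ range (n + 1), (X : ℂ[X]) ^ (i + 1) = X * ∑ i ∈ range (n + 1), X ^ i := by
      rw [Finset.mul_sum]
      exact Finset.sum_congr rfl fun i _ => by ring
    rw [h4]
    ring

lemma rr_option (part : V → ι) (S : Finset V) :
    rr (Option.map part) (insert none (S.map Function.Embedding.some)) = rr part S + 1 := by
  classical
  have h1 : cnt (Option.map part) (insert none (S.map Function.Embedding.some)) none = 1 := by
    unfold cnt
    rw [Finset.card_eq_one]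
    refine ⟨none, ?_⟩
    ext u
    rcases u with _ | u
    · simp
    · simp
  have h2 : ∀ i, cnt (Option.map part) (insert none (S.map Function.Embedding.some)) (some i) =
      cnt part S i := by
    intro i
    unfold cnt
    have e : (insert none (S.map Function.Embedding.some)).filter
        (fun v => Option.map part v = some i) =
        (S.filter (fun v => part v = i)).map Function.Embedding.some := by
      ext u
      rcases u with _ | u
      · simp
      · simp
    rw [e, Finset.card_map]
  unfold rr
  have e : (univ.filter (fun i => Odd (cnt (Option.map part)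
      (insert none (S.map Function.Embedding.some)) i))) =
      insert none ((univ.filter (fun i => Odd (cnt part S i))).map Function.Embedding.some) := by
    ext u
    rcases u with _ | u
    · simp [h1]
    · simp [h2]
  rw [e, Finset.card_insert_of_notMem (by simp), Finset.card_map]

lemma geom_factor (m : ℕ) : (∑ i ∈ range (2 * m), X ^ i : ℂ[X]) =
    (1 + X) ^ 1 * ∑ j ∈ range m, X ^ (2 * j) := by
  induction m with
  | zero => simp
  | succ m ih =>
    rw [mul_add, mul_one, Finset.sum_range_succ, Finset.sum_range_succ, ih,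
      Finset.sum_range_succ]
    ring

lemma mult_odd {part : V → ι} {arc : V → V → Prop} (hA : IsOri part arc) (h : ℕ)
    (S : Finset V) (hS : S.card = 2 * h + 1) :
    rootMultiplicity (-1) (pol ℂ arc S) = rr part S / 2 := by
  classical
  have hc : (insert none (S.map Function.Embedding.some) : Finset (Option V)).card =
      2 * (h + 1) := by
    rw [Finset.card_insert_of_notMem (by simp), Finset.card_map, hS]
    ring
  obtain ⟨h1, h2⟩ := mult_even (isOri_option hA) (h + 1) _ hc
  rw [pol_option hA _ S hS] at h1 h2
  rw [rr_option] at h1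
  rw [rootMultiplicity_mul h2] at h1
  have h3 : rootMultiplicity (-1) (∑ i ∈ range (2 * h + 1 + 1), X ^ i : ℂ[X]) = 1 := by
    have e : 2 * h + 1 + 1 = 2 * (h + 1) := by ring
    rw [e]
    refine mult_of_factor (geom_factor (h + 1)) ?_
    rw [eval_finsetSum]
    have h4 : ∀ j ∈ range (h + 1), eval (-1) (X ^ (2 * j) : ℂ[X]) = 1 := by
      intro j _
      simp [pow_mul]
    rw [Finset.sum_congr rfl h4]
    simp only [Finset.sum_const, Finset.card_range, nsmul_eq_mul, mul_one]
    exact_mod_cast Nat.succ_ne_zero h
  rw [h3] at h1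
  have h5 : Odd (rr part S) := (rr_parity part S).2 ⟨h, hS⟩
  rw [Nat.odd_iff] at h5
  omega

end Count

end Sets

/-- **Main result.** Let `D` be an orientation of a complete multipartite graph on the vertex set
`Fin n`, with parts the fibres of `part : Fin n → ι`. The multiplicity of `-1` as a root of the
Eulerian polynomial of `D` is half the number of parts of odd size, rounded down. -/
theorem result : ∀ (n : ℕ) (ι : Type) [Fintype ι] [DecidableEq ι] (part : Fin n → ι)
    (arc : Fin n → Fin n → Prop), IsOri part arc →
    rootMultiplicity (-1 : ℂ) ((eul ℤ n arc).map (Int.castRingHom ℂ)) =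
      (univ.filter (fun i : ι => Odd (univ.filter (fun v : Fin n => part v = i)).card)).card / 2 := by
  intro n ι _ _ part arc hA
  rw [eul_map]
  have h1 : eul ℂ n arc = pol ℂ arc (univ : Finset (Fin n)) := by
    unfold pol
    rw [Finset.card_univ, Fintype.card_fin]
    refine (eul_iso ℂ n _ _ (Equiv.ofBijective (fun v : (univ : Finset (Fin n)) => v.1)
      ⟨?_, ?_⟩) ?_).symm
    · intro u v huv
      exact Subtype.ext huv
    · intro v
      exact ⟨⟨v, Finset.mem_univ v⟩, rfl⟩
    · intro u v
      exact Iff.rfl
  rw [h1]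
  have hc : (univ : Finset (Fin n)).card = n := by simp
  rcases Nat.even_or_odd' n with ⟨h, h2 | h2⟩
  · exact (mult_even hA h univ (hc.trans h2)).1
  · exact mult_odd hA h univ (hc.trans h2)

end Pool.Agent.Results.MP_a2af9e_co.MultHalfOdd
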